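import Pool.Agent.X34.M.M4

set_option autoImplicit false

/-!
# Primes `p` such that `2 k p + 1` is composite for all multipliers `k` of a set of record size

Q1 asks for a small multiplier `k` with `2 k p + 1` prime, for every odd prime `p`. Here is how small it can not be:
for at least `X ^ (9 / 10)` primes `p` in `(X, 3 X]` (in any class modulo a squarefree number) the number `2 k p + 1`
is composite for all `k ≤ c f(p)` and for all primes `k ≤ c f(p) log log p`, where
`f(p) = log p (log₂ p)² log₄ p / (log₃ p)²` (iterated natural logarithms) is the size of the largest known gaps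
between primes. This is a case of a theorem on arbitrary sets of multipliers: the numbers `(k p + j) / i`,
`1 ≤ |i|, |j| ≤ J`, are not prime for all `k` of an arbitrary set of record size.

Proof: the record covering sieve with a prime in the middle (starting library, `Pool.Agent.TH101.RG.oneZ`, helper101)
for the family of the forms `k n + ℓ` with the variable coefficient `k`.
-/

namespace Pool.Agent.Results.MP_2f88e5_nt.NoSmallMultiplier

/-- The record scale `f(x) = log x (log₂ x)² log₄ x / (log₃ x)²` (iterated natural logarithms). -/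
noncomputable def f (x : ℝ) : ℝ :=
  Real.log x * (Real.log (Real.log x)) ^ 2 * Real.log (Real.log (Real.log (Real.log x))) /
    (Real.log (Real.log (Real.log x))) ^ 2

/-- (1) For every squarefree `d` there is `c > 0` such that for all large `X` and all `h` prime to `d` at least
`X ^ (9 / 10)` primes `p` with `X < p ≤ 3 X`, `p ≡ h (mod d)` are such that `2 k p + 1` is not prime for all
`1 ≤ k ≤ c f(p)` and for all primes `k ≤ c f(p) log log p`.

(2) For all `A`, `J` and every squarefree `d` there is `c > 0` such that for all large `X`, all `h` prime to `d` and all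
finite sets `K` of positive integers `k ≤ log X (log log X)^A` with `∑ k / φ(k) ≤ c f(X)`: at least `X ^ (9 / 10)` primes
`p` with `X < p ≤ 3 X`, `p ≡ h (mod d)` are such that for all `k ∈ K` and all integers `i`, `j` with
`1 ≤ |i|, |j| ≤ J` the number `(k p + j) / i` is not a prime. -/
theorem result :
    (∀ d : ℕ, Squarefree d → ∃ c : ℝ, 0 < c ∧ ∃ X₀ : ℝ, ∀ X : ℝ, X₀ ≤ X → ∀ h : ℕ, h.Coprime d →
      X ^ (9 / 10 : ℝ) ≤ ({p : ℕ | p.Prime ∧ X < p ∧ (p : ℝ) ≤ 3 * X ∧ p ≡ h [MOD d] ∧
        (∀ k : ℕ, 1 ≤ k → (k : ℝ) ≤ c * f p → ¬ (2 * k * p + 1).Prime) ∧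
        (∀ k : ℕ, k.Prime → (k : ℝ) ≤ c * (f p * Real.log (Real.log p)) →
          ¬ (2 * k * p + 1).Prime)}.ncard : ℝ)) ∧
    (∀ A J d : ℕ, Squarefree d → ∃ c : ℝ, 0 < c ∧ ∃ X₀ : ℝ, ∀ X : ℝ, X₀ ≤ X → ∀ h : ℕ, h.Coprime d →
      ∀ K : Finset ℕ, (∀ k ∈ K, 1 ≤ k ∧ (k : ℝ) ≤ Real.log X * (Real.log (Real.log X)) ^ A) →
      ∑ k ∈ K, ((k : ℝ) / (k.totient : ℝ)) ≤ c * f X →
      X ^ (9 / 10 : ℝ) ≤ ({p : ℕ | p.Prime ∧ X < p ∧ (p : ℝ) ≤ 3 * X ∧ p ≡ h [MOD d] ∧
        ∀ k ∈ K, ∀ i j : ℤ, 1 ≤ |i| → |i| ≤ J → 1 ≤ |j| → |j| ≤ J → ∀ q : ℕ, q.Prime →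
          k * p + j ≠ i * q}.ncard : ℝ)) := by
  constructor
  · intro d hd
    obtain ⟨c, hc, h⟩ := Pool.Agent.X34.M.twoSets d hd
    exact ⟨c, hc, Filter.eventually_atTop.1 h⟩
  · intro A J d hd
    obtain ⟨c, hc, h⟩ := Pool.Agent.X34.M.multipliers A J d hd
    exact ⟨c, hc, Filter.eventually_atTop.1 h⟩

end Pool.Agent.Results.MP_2f88e5_nt.NoSmallMultiplier
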