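import Pool.Agent.X55.Fam.LinCor

/-!
# Almost primes of the form `2 k P + 1` with prescribed residues of `k` modulo `P`

Let `P` be a large prime. We consider the numbers `2 k P + 1` for the integers `k`
* of an ARBITRARY set `A` of residues modulo `P` whose Fourier coefficients are at most `Γ`, in ARBITRARY intervals of
  a length `H ≤ P` with `|A| H ≥ Γ P ^ (1 + ε)`;
* of a coset of a subgroup `S` of the residues, in the intervals of a length `H ≤ P` with `|S| H ≥ P ^ (3 / 2 + ε)`;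
* which are primitive roots of `P`, in the intervals of a length `H` with `P ^ (1 / 2 + ε) ≤ H ≤ P`;
* which are on the modular hyperbola `k m = a` modulo `P` with `k` and `m` in intervals of the lengths `H`, `K ≤ P` with
  `H K ≥ P ^ (3 / 2 + ε)`.
Each time the number of the `k` for which `2 k P + 1` has a bounded number of prime factors, all greater than `P ^ δ`,
has the expected order of magnitude `N / log P` (`N` is the expected number of the `k`), and the number of the `k` for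
which `2 k P + 1` is a prime is at most of this order.

The proof combines a sieve which is uniform in the removed residue classes, incomplete sums, Weil's bound for the
Kloosterman sums and a Moebius formula for primitive roots.
-/

set_option autoImplicit false

namespace Pool.Agent.Results.MP_2f88e5_nt.ResiduesModuloPrimes

open Finset

/-- `m ≠ 0` has at most `r` prime factors, counted with multiplicity, all of them greater than `x`. -/
def AlmostPrime (r : ℕ) (x : ℝ) (m : ℕ) : Prop :=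
  m ≠ 0 ∧ m.primeFactorsList.length ≤ r ∧ ∀ q : ℕ, q.Prime → q ∣ m → x < q

/-- the number of the `k` in `(M, M + H]` with the property `R` for which `2 k P + 1` is an almost prime -/
noncomputable def almost (P r : ℕ) (x : ℝ) (M H : ℕ) (R : ℕ → Prop) : ℕ :=
  Set.ncard {k : ℕ | M < k ∧ k ≤ M + H ∧ R k ∧ AlmostPrime r x (2 * k * P + 1)}

/-- the number of the `k` in `(M, M + H]` with the property `R` for which `2 k P + 1` is a prime -/
noncomputable def primes (P M H : ℕ) (R : ℕ → Prop) : ℕ :=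
  Set.ncard {k : ℕ | M < k ∧ k ≤ M + H ∧ R k ∧ (2 * k * P + 1).Prime}

/-- the bounds for the interval `(M, M + H]` and the property `R`, with the expected number `N` -/
def Bounds (P r : ℕ) (δ c C : ℝ) (B M H : ℕ) (R : ℕ → Prop) (N : ℝ) : Prop :=
  (M + H ≤ P ^ B → c * N / Real.log P ≤ almost P r ((P : ℝ) ^ δ) M H R) ∧
  (primes P M H R : ℝ) ≤ C * N / Real.log P

/-- the coefficient of the form -/
def ca (P : ℕ) : Fin 1 → ℤ := ![2 * (P : ℤ)]

/-- the constant of the form -/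
def cb : Fin 1 → ℤ := ![1]

lemma val (P n : ℕ) (i : Fin 1) : (ca P i * (n : ℤ) + cb i).natAbs = 2 * n * P + 1 := by
  fin_cases i
  show (2 * (P : ℤ) * (n : ℤ) + 1).natAbs = 2 * n * P + 1
  rw [show (2 * (P : ℤ) * (n : ℤ) + 1) = ((2 * n * P + 1 : ℕ) : ℤ) by push_cast; ring, Int.natAbs_natCast]

lemma all1 (P n : ℕ) (Q : ℕ → Prop) : (∀ i, Q (ca P i * (n : ℤ) + cb i).natAbs) ↔ Q (2 * n * P + 1) := by
  constructor
  · intro h
    have := h 0
    rwa [val] at this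
  · intro h i
    rw [val]
    exact h

lemma adm (P q : ℕ) (hq : q.Prime) : ∃ n : ℕ, ∀ i, ¬ (q : ℤ) ∣ ca P i * (n : ℤ) + cb i := by
  refine ⟨0, fun i h => ?_⟩
  fin_cases i
  have h1 : (q : ℤ) ∣ 2 * (P : ℤ) * ((0 : ℕ) : ℤ) + 1 := h
  rw [Nat.cast_zero, mul_zero, zero_add] at h1
  have := Int.eq_one_of_dvd_one (by positivity) h1
  exact hq.one_lt.ne' (by exact_mod_cast this)

lemma ca_ne {P : ℕ} (hP : 1 ≤ P) (i : Fin 1) : ca P i ≠ 0 := by
  fin_cases i
  show 2 * (P : ℤ) ≠ 0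
  omega

/-- the product of the local factors -/
lemma V_up : ∃ C1 : ℝ, 0 < C1 ∧ ∀ P : ℕ, P.Prime → 3 ≤ P →
    Pool.Agent.X55.Fam.VL (ca P) cb P ≤ C1 / Real.log P := by
  classical
  obtain ⟨C, hC0, hC⟩ := Pool.Agent.X55.Fam.mert1
  refine ⟨Real.exp (C + 1), Real.exp_pos _, ?_⟩
  intro P hP h3
  rw [Pool.Agent.X55.Fam.VL_eq]
  unfold Pool.Agent.X55.Fam.VQ
  have hPr : (3 : ℝ) ≤ P := by exact_mod_cast h3
  have hl : 0 < Real.log P := Real.log_pos (by linarith)
  have hroot : ∀ q ∈ Pool.Agent.H373R2.T7.pz P, ¬ (q = 2 ∨ q = P) →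
      1 ≤ Pool.Agent.H373R2.T7.nuB (Pool.Agent.X55.Fam.QL (ca P) cb) q := by
    intro q hq hne
    push Not at hne
    rw [Pool.Agent.H373R2.T7.mem_pz] at hq
    have : Fact q.Prime := ⟨hq.2⟩
    have hu : ((2 * P : ℕ) : ZMod q) ≠ 0 := by
      rw [Ne, ZMod.natCast_eq_zero_iff]
      intro hd
      rcases (Nat.Prime.dvd_mul hq.2).1 hd with h | h
      · exact hne.1 ((Nat.prime_dvd_prime_iff_eq hq.2 Nat.prime_two).1 h)
      · exact hne.2 ((Nat.prime_dvd_prime_iff_eq hq.2 hP).1 h)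
    unfold Pool.Agent.H373R2.T7.nuB
    rw [Nat.one_le_iff_ne_zero, ← Nat.pos_iff_ne_zero, card_pos]
    refine ⟨(-(((2 * P : ℕ) : ZMod q))⁻¹).val, ?_⟩
    rw [mem_filter, mem_range]
    refine ⟨ZMod.val_lt _, 0, ?_⟩
    show (q : ℤ) ∣ 2 * (P : ℤ) * (((-(((2 * P : ℕ) : ZMod q))⁻¹).val : ℕ) : ℤ) + 1
    rw [← ZMod.intCast_zmod_eq_zero_iff_dvd]
    push_cast
    rw [ZMod.natCast_zmod_val]
    push_cast at hu
    rw [mul_neg, mul_inv_cancel₀ hu, neg_add_cancel]
  have hfac : ∀ q ∈ Pool.Agent.H373R2.T7.pz P,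
      1 - (Pool.Agent.H373R2.T7.nuB (Pool.Agent.X55.Fam.QL (ca P) cb) q : ℝ) / q ≤
        Real.exp (-(1 / q) + if q = 2 ∨ q = P then (1 / q : ℝ) else 0) := by
    intro q hq
    have hqp : (0 : ℝ) < q := by
      rw [Pool.Agent.H373R2.T7.mem_pz] at hq
      exact_mod_cast hq.2.pos
    by_cases h : q = 2 ∨ q = P
    · rw [if_pos h, neg_add_cancel, Real.exp_zero]
      exact Pool.Agent.X55.Fam.fac_le_one _ _
    · rw [if_neg h, add_zero]
      have h1 : (1 : ℝ) ≤ Pool.Agent.H373R2.T7.nuB (Pool.Agent.X55.Fam.QL (ca P) cb) q := by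
        exact_mod_cast hroot q hq h
      have h2 : 1 / (q : ℝ) ≤ (Pool.Agent.H373R2.T7.nuB (Pool.Agent.X55.Fam.QL (ca P) cb) q : ℝ) / q := by gcongr
      have := Real.add_one_le_exp (-(1 / (q : ℝ)))
      linarith
  have hadm := Pool.Agent.X55.Fam.adm_lin (ca P) cb (adm P)
  have hnn : ∀ q ∈ Pool.Agent.H373R2.T7.pz P,
      0 ≤ 1 - (Pool.Agent.H373R2.T7.nuB (Pool.Agent.X55.Fam.QL (ca P) cb) q : ℝ) / q := by
    intro q hq
    rw [Pool.Agent.H373R2.T7.mem_pz] at hq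
    have h1 : (Pool.Agent.H373R2.T7.nuB (Pool.Agent.X55.Fam.QL (ca P) cb) q : ℝ) ≤ q := by
      unfold Pool.Agent.H373R2.T7.nuB
      have := card_filter_le (range q) (fun r => Pool.Agent.X55.Fam.QL (ca P) cb q r)
      rw [card_range] at this
      exact_mod_cast this
    have hqp : (0 : ℝ) < q := by exact_mod_cast hq.2.pos
    rw [sub_nonneg, div_le_one hqp]
    exact h1
  refine (prod_le_prod hnn hfac).trans ?_
  rw [← Real.exp_sum, sum_add_distrib]
  have h4 : ∑ q ∈ Pool.Agent.H373R2.T7.pz P, (if q = 2 ∨ q = P then (1 / q : ℝ) else 0) ≤ 1 := by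
    rw [← sum_filter]
    have h5 : (Pool.Agent.H373R2.T7.pz P).filter (fun q => q = 2 ∨ q = P) ⊆ {2, P} := by
      intro q hq
      rw [mem_filter] at hq
      rw [mem_insert, mem_singleton]
      exact hq.2
    refine (sum_le_sum_of_subset_of_nonneg h5 fun _ _ _ => by positivity).trans ?_
    rw [sum_pair (by omega)]
    have : 1 / (P : ℝ) ≤ 1 / 2 := by
      apply div_le_div_of_nonneg_left (by norm_num) (by norm_num)
      linarith
    norm_num at this ⊢
    linarith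
  have h5 := (abs_le.1 (hC P h3)).1
  have h6 : ∑ q ∈ Pool.Agent.H373R2.T7.pz P, -(1 / (q : ℝ)) = -∑ q ∈ Pool.Agent.H373R2.T7.pz P, 1 / (q : ℝ) := by
    rw [sum_neg_distrib]
  rw [h6]
  calc Real.exp (-∑ q ∈ Pool.Agent.H373R2.T7.pz P, 1 / (q : ℝ) +
        ∑ q ∈ Pool.Agent.H373R2.T7.pz P, (if q = 2 ∨ q = P then (1 / q : ℝ) else 0)) ≤
        Real.exp ((C + 1) + -Real.log (Real.log P)) := by
          apply Real.exp_le_exp.2
          linarith
    _ = Real.exp (C + 1) / Real.log P := by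
        rw [Real.exp_add, Real.exp_neg, Real.exp_log hl]
        ring

lemma conv {P r : ℕ} {δ c C c1 C1 : ℝ} {B M H : ℕ} {R : ℕ → Prop} {N : ℝ} (hP : 3 ≤ P) (hB : 1 ≤ B) (hc : 0 < c)
    (hC : 0 < C) (hN : 0 ≤ N)
    (hlo : c1 / Real.log P ≤ Pool.Agent.X55.Fam.VL (ca P) cb P)
    (hup : Pool.Agent.X55.Fam.VL (ca P) cb P ≤ C1 / Real.log P)
    (h : Pool.Agent.X55.Fam.BothL (ca P) cb P r δ c C (B + 1) M H R N) :
    Bounds P r δ (c * c1) (C * C1) B M H R N := by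
  obtain ⟨h1, h2⟩ := h
  unfold Pool.Agent.X55.Fam.LoT at h1
  unfold Pool.Agent.X55.Fam.UpL at h2
  have s1 : {n : ℕ | M < n ∧ n ≤ M + H ∧ R n ∧ ∀ i, Pool.Agent.X55.Fam.Good r ((P : ℝ) ^ δ)
      (ca P i * (n : ℤ) + cb i).natAbs} =
      {k : ℕ | M < k ∧ k ≤ M + H ∧ R k ∧ AlmostPrime r ((P : ℝ) ^ δ) (2 * k * P + 1)} := by
    ext n
    refine and_congr_right fun _ => and_congr_right fun _ => and_congr_right fun _ => ?_
    exact all1 P n (AlmostPrime r ((P : ℝ) ^ δ))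
  have s2 : {n : ℕ | M < n ∧ n ≤ M + H ∧ R n ∧ ∀ i, (ca P i * (n : ℤ) + cb i).natAbs.Prime} =
      {k : ℕ | M < k ∧ k ≤ M + H ∧ R k ∧ (2 * k * P + 1).Prime} := by
    ext n
    refine and_congr_right fun _ => and_congr_right fun _ => and_congr_right fun _ => ?_
    exact all1 P n Nat.Prime
  rw [s1] at h1
  rw [s2] at h2
  have hP1 : 1 ≤ P := by omega
  refine ⟨fun hM => le_trans ?_ (h1 (hM.trans (Nat.pow_le_pow_right hP1 (by omega))) (fun i => ?_) (fun i => ?_)),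
    h2.trans ?_⟩
  · calc c * c1 * N / Real.log P = c * (N * (c1 / Real.log P)) := by ring
      _ ≤ _ := by gcongr
  · fin_cases i
    show (2 * (P : ℤ)).natAbs ≤ P ^ (B + 1)
    have e1 : (2 * (P : ℤ)).natAbs = 2 * P := by omega
    rw [e1]
    calc 2 * P ≤ P * P := Nat.mul_le_mul_right _ (by omega)
      _ = P ^ 2 := by ring
      _ ≤ P ^ (B + 1) := Nat.pow_le_pow_right hP1 (by omega)
  · fin_cases i
    exact Nat.one_le_pow _ _ hP1
  · calc C * (N * Pool.Agent.X55.Fam.VL (ca P) cb P) ≤ C * (N * (C1 / Real.log P)) := by gcongr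
      _ = _ := by ring

theorem result : ∀ ε : ℝ, 0 < ε → ∀ B : ℕ, 1 ≤ B → ∃ (r : ℕ) (δ c C : ℝ) (P₀ : ℕ), 0 < δ ∧ 0 < c ∧ 0 < C ∧
    ∀ P : ℕ, P₀ ≤ P → ∀ [Fact P.Prime],
      -- sets with small Fourier coefficients
      (∀ (A : Finset (ZMod P)) (Γ : ℝ), 1 ≤ Γ →
        (∀ a : ZMod P, a ≠ 0 → ‖∑ x ∈ A, (ZMod.stdAddChar (a * x) : ℂ)‖ ≤ Γ) →
        ∀ M H : ℕ, H ≤ P → Γ * (P : ℝ) ^ (1 + ε) ≤ A.card * H →
        Bounds P r δ c C B M H (fun k => (k : ZMod P) ∈ A) (A.card * H / P)) ∧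
      -- cosets of subgroups
      (∀ (S : Subgroup (ZMod P)ˣ) (b : (ZMod P)ˣ) (M H : ℕ), H ≤ P → 
        (P : ℝ) ^ (3 / 2 + ε) ≤ (Nat.card S : ℝ) * H →
        Bounds P r δ c C B M H (fun k => ∃ g ∈ S, (k : ZMod P) = (b : ZMod P) * (g : ZMod P))
          (Nat.card S * H / P)) ∧
      -- primitive roots
      (∀ M H : ℕ, H ≤ P → (P : ℝ) ^ (1 / 2 + ε) ≤ H →
        Bounds P r δ c C B M H (fun k => orderOf (k : ZMod P) = P - 1) ((P - 1).totient * H / P)) ∧
      -- modular hyperbolas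
      (∀ a : ZMod P, a ≠ 0 → ∀ M H L K : ℕ, H ≤ P → K ≤ P → (P : ℝ) ^ (3 / 2 + ε) ≤ (H : ℝ) * K →
        Bounds P r δ c C B M H (fun k => ∃ m : ℕ, L < m ∧ m ≤ L + K ∧ (k : ZMod P) * (m : ZMod P) = a)
          (K * H / P)) := by
  intro ε hε B hB
  obtain ⟨r, δ, c, C, P₀, hδ, hc, hC, h⟩ := Pool.Agent.X55.Fam.res_lin 1 le_rfl ε hε (B + 1)
  obtain ⟨c1, hc1, hlo⟩ := Pool.Agent.X55.Fam.VQ_low 1 le_rfl
  obtain ⟨C1, hC1, hup⟩ := V_up
  refine ⟨r, δ, c * c1, C * C1, max P₀ 3, hδ, by positivity, by positivity, ?_⟩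
  intro P hP _
  have hpp : P.Prime := Fact.out
  have hP3 : 3 ≤ P := (le_max_right _ _).trans hP
  have hlo' : c1 / Real.log P ≤ Pool.Agent.X55.Fam.VL (ca P) cb P := by
    rw [Pool.Agent.X55.Fam.VL_eq]
    have := hlo _ (Pool.Agent.X55.Fam.adm_lin (ca P) cb (adm P)) P hP3
    rwa [pow_one] at this
  have hup' := hup P hpp hP3
  obtain ⟨h1, h2, h3, h4⟩ := h P ((le_max_left _ _).trans hP) (ca P) cb (ca_ne (by omega)) (adm P)
  exact ⟨fun A Γ hΓ hA M H hH hAH => conv hP3 hB hc hC (by positivity) hlo' hup' (h1 A Γ hΓ hA M H hH hAH),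
    fun S b M H hH hGH => conv hP3 hB hc hC (by positivity) hlo' hup' (h2 S b M H hH hGH),
    fun M H hH hPH => conv hP3 hB hc hC (by positivity) hlo' hup' (h3 M H hH hPH),
    fun a ha M H L K hH hK hHK => conv hP3 hB hc hC (by positivity) hlo' hup' (h4 a ha M H L K hH hK hHK)⟩

end Pool.Agent.Results.MP_2f88e5_nt.ResiduesModuloPrimes
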