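import Pool.Agent.X32.Uni.Mult

/-!
# Almost prime multipliers `k` with `2 k p + 1` almost prime, in all short intervals, for every `p`

Let `L ≥ 1` and `ε > 0`. There are `z`, `G`, `t` and `κ, K' > 0` such that for ALL large integers `p` (in particular for
all large primes) and EVERY interval `(A, B]` with `B ≤ p`, `B - A ≥ p ^ ε`, the number of the integers `k` in `(A, B]`
such that
* `k` and `2 k p + 1` are products of at most `t` primes `> p ^ (1/t)`,
* all `k + j`, `|j| ≤ L`, and all `2 k p + j`, `0 < |j| ≤ L`, are products of an integer `1 ≤ g ≤ G` composed of primes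
  `≤ z` and of at most `t` primes `> p ^ (1/t)`,
is between `κ (B - A) V` and `K' (B - A) V`. Here `V` is the product of `1 - ω(q) / q` over the primes `z < q ≤ p`, `ω(q)`
the number of the zeros modulo `q` of the product of all the `x + j` and `2 p x + j`; `V ≥ κ / (log p) ^ (4 L + 1)`: this
is the conjectured order of magnitude for all these numbers to be (bounded multiples of) primes. For every colouring
all but `δ (B - A) V` of these `k` are covered by pairwise disjoint monochromatic progressions of `s` such `k` with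
differences `≤ (log p) ^ c`.
-/

set_option autoImplicit false

namespace Pool.Agent.Results.MP_2f88e5_nt.ShortIntervalsOfMultipliers

open Finset

/-- `|v| > 1`, and `|v|` is a product of at most `r` primes, all of them larger than `y` -/
def Almost (r : ℕ) (y : ℝ) (v : ℤ) : Prop :=
  1 < |v| ∧ v.natAbs.primeFactorsList.length ≤ r ∧ ∀ q : ℕ, q.Prime → (q : ℤ) ∣ v → y < q

/-- `v = g w`, where `1 ≤ g ≤ G` has only prime factors `≤ z` and `|w| > 1` is a product of at most `r` primes `> y` -/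
def Near (z G r : ℕ) (y : ℝ) (v : ℤ) : Prop :=
  ∃ (g : ℕ) (w : ℤ), v = g * w ∧ 1 ≤ g ∧ g ≤ G ∧ (∀ p : ℕ, p.Prime → p ∣ g → p ≤ z) ∧ Almost r y w

/-- `ω(q)`: the number of the zeros of `∏_{|j| ≤ L} (x + j) ∏_{0 < |j| ≤ L} (2 p x + j)` modulo `q` -/
noncomputable def omega (p L q : ℕ) : ℕ :=
  ((range q).filter fun x : ℕ => (q : ℤ) ∣ (∏ j ∈ Icc (-(L : ℤ)) L, ((x : ℤ) + j)) *
    ∏ j ∈ (Icc (-(L : ℤ)) L).erase 0, (2 * p * (x : ℤ) + j)).card

/-- the product of `1 - ω(q) / q` over the primes `z < q ≤ p` -/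
noncomputable def V (p L z : ℕ) : ℝ := ∏ q ∈ (Ioc z p).filter Nat.Prime, (1 - (omega p L q : ℝ) / q)

open Classical in
/-- the integers `k` of `(A, B]` described above -/
noncomputable def Good (p L z G t A B : ℕ) : Finset ℕ :=
  (Ioc A B).filter (fun k : ℕ => Almost t ((p : ℝ) ^ (1 / (t : ℝ))) (k : ℤ) ∧
    Almost t ((p : ℝ) ^ (1 / (t : ℝ))) (2 * p * (k : ℤ) + 1) ∧
    ∀ j : ℤ, |j| ≤ L → Near z G t ((p : ℝ) ^ (1 / (t : ℝ))) ((k : ℤ) + j) ∧
      (j ≠ 0 → Near z G t ((p : ℝ) ^ (1 / (t : ℝ))) (2 * p * (k : ℤ) + j)))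

/-- the terms `a, a + b, ..., a + (s - 1) b` of the progression `τ = (a, b)` -/
def terms (s : ℕ) (τ : ℕ × ℕ) : Finset ℕ := (range s).image (fun i => τ.1 + i * τ.2)

theorem result (L : ℕ) (hL : 1 ≤ L) (ε : ℝ) (hε : 0 < ε) :
    ∃ z G t : ℕ, 1 ≤ t ∧ ∃ κ K' : ℝ, 0 < κ ∧ 0 < K' ∧ ∀ (s r : ℕ) (δ : ℝ),
    1 ≤ s → 0 < δ → ∃ c p₀ : ℕ, ∀ p : ℕ, p₀ ≤ p →
      κ / Real.log p ^ (4 * L + 1) ≤ V p L z ∧
      ∀ A B : ℕ, B ≤ p → (p : ℝ) ^ ε ≤ (B : ℝ) - A →
        κ * ((B : ℝ) - A) * V p L z ≤ ((Good p L z G t A B).card : ℝ) ∧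
        ((Good p L z G t A B).card : ℝ) ≤ K' * ((B : ℝ) - A) * V p L z ∧
        ∀ χ : ℕ → Fin r, ∃ P : Finset (ℕ × ℕ),
          (∀ τ ∈ P, 1 ≤ τ.2 ∧ (τ.2 : ℝ) ≤ Real.log p ^ c ∧
            ∀ l < s, τ.1 + l * τ.2 ∈ Good p L z G t A B ∧ χ (τ.1 + l * τ.2) = χ τ.1) ∧
          (P : Set (ℕ × ℕ)).PairwiseDisjoint (terms s) ∧
          (((Good p L z G t A B \ P.biUnion (terms s)).card : ℕ) : ℝ) ≤ δ * ((B : ℝ) - A) * V p L z :=
  Pool.Agent.X32.Uni.multS L hL ε hε

end Pool.Agent.Results.MP_2f88e5_nt.ShortIntervalsOfMultipliers
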